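import Pool.Agent.Helper16.KS.St
import Pool.Agent.Helper33.KS.CM
import Pool.Agent.Helper62.KS.Cand

/-! Project KS: masses.  `SumW`, `Rank`, `MassC1`, `MassR1` of Helper16/KS/St.lean. -/

set_option autoImplicit false
open scoped Classical
open Filter Topology Finset

namespace Pool.Agent.Helper29.KS

open Pool.Agent.Helper16.KS
open Pool.Agent.Helper33.KS (cm cm_prime cm_nonneg cm_mono cm_rpow cm_mul_fun sum_cm_le')

/-! ### completely multiplicative majorants -/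

theorem CM_eq (g : ℕ → ℝ) {n : ℕ} (hn : n ≠ 0) : CM g n = cm g n := by
  induction n using Nat.recOnMul with
  | zero => exact absurd rfl hn
  | one => simp [CM]
  | prime p hp => rw [cm_prime _ hp, CM, Nat.primeFactorsList_prime hp]; simp
  | mul m n hm hn' =>
    have hm0 : m ≠ 0 := fun h => hn (by simp [h])
    have hn0 : n ≠ 0 := fun h => hn (by simp [h])
    rw [map_mul, ← hm hm0, ← hn' hn0]
    simp only [CM]
    rw [(List.Perm.map g (Nat.perm_primeFactorsList_mul hm0 hn0)).prod_eq, List.map_append, List.prod_append]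

/-- `1 + log n ≤ ∏ (1 + log p)` -/
theorem one_add_log_le {n : ℕ} (hn : n ≠ 0) : 1 + Real.log n ≤ cm (fun p => 1 + Real.log p) n := by
  induction n using Nat.recOnMul with
  | zero => exact absurd rfl hn
  | one => simp
  | prime p hp => rw [cm_prime _ hp]
  | mul m n hm hn' =>
    have hm0 : m ≠ 0 := fun h => hn (by simp [h])
    have hn0 : n ≠ 0 := fun h => hn (by simp [h])
    rw [map_mul]
    have h1 := hm hm0
    have h2 := hn' hn0
    have l1 : 0 ≤ Real.log m := Real.log_natCast_nonneg m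
    have l2 : 0 ≤ Real.log n := Real.log_natCast_nonneg n
    push_cast
    rw [Real.log_mul (by exact_mod_cast hm0) (by exact_mod_cast hn0)]
    calc 1 + (Real.log m + Real.log n) ≤ (1 + Real.log m) * (1 + Real.log n) := by nlinarith [mul_nonneg l1 l2]
      _ ≤ _ := mul_le_mul h1 h2 (by linarith) (le_trans (by linarith) h1)

/-- sums of completely multiplicative functions with a small sum over the primes -/
theorem sum_cm_small {F : ℕ → ℝ} (hF : ∀ p, p.Prime → 0 ≤ F p) {B : ℝ} (hB2 : B ≤ 1/2)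
    (hB : ∀ N : ℕ, ∑ p ∈ (Icc 1 N).filter Nat.Prime, F p ≤ B) (T : Finset ℕ) (hT : ∀ n ∈ T, 2 ≤ n) :
    ∑ n ∈ T, cm F n ≤ 4 * B := by
  have hF2 : ∀ p, p.Prime → F p ≤ 1/2 := by
    intro p hp
    refine le_trans ?_ ((hB p).trans hB2)
    exact Finset.single_le_sum (f := F) (fun q hq => hF q (mem_filter.1 hq).2)
      (mem_filter.2 ⟨mem_Icc.2 ⟨hp.pos, le_rfl⟩, hp⟩)
  have hB0 : 0 ≤ B := le_trans (Finset.sum_nonneg fun q hq => hF q (mem_filter.1 hq).2) (hB 1)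
  obtain ⟨N, hN⟩ : ∃ N, T ⊆ Icc 2 N := ⟨T.sup id, fun n hn => mem_Icc.2 ⟨hT n hn, Finset.le_sup (f := id) hn⟩⟩
  calc ∑ n ∈ T, cm F n ≤ ∑ n ∈ Icc 2 N, cm F n :=
        Finset.sum_le_sum_of_subset_of_nonneg hN fun n _ _ => cm_nonneg hF n
    _ ≤ Real.exp (2 * ∑ p ∈ (Icc 1 N).filter Nat.Prime, F p) - 1 := sum_cm_le' hF hF2 N
    _ ≤ Real.exp (2 * B) - 1 := by
        have := Real.exp_le_exp.2 (mul_le_mul_of_nonneg_left (hB N) (show (0:ℝ) ≤ 2 by norm_num))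
        linarith
    _ ≤ 4 * B := by
        have h := Real.abs_exp_sub_one_sub_id_le (x := 2 * B) (by rw [abs_of_nonneg (by linarith)]; linarith)
        rw [abs_le] at h
        nlinarith [h.2]

/-! ### the parameters of a system -/

variable (S : Sys)

theorem eta_pos : 0 < S.eta := by
  have h1 := S.d_pos; have h2 := S.d_le; have h3 := S.c_le
  have : 0 < S.c := by
    have : 0 < S.c / 10 ^ 5 := lt_of_lt_of_le h1 h2
    linarith [mul_pos this (show (0:ℝ) < 10 ^ 5 by norm_num)]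
  linarith

theorem c_pos : 0 < S.c := by
  have h1 := S.d_pos; have h2 := S.d_le
  have : 0 < S.c / 10 ^ 5 := lt_of_lt_of_le h1 h2
  linarith [mul_pos this (show (0:ℝ) < 10 ^ 5 by norm_num)]

theorem s_pos : 0 < S.s := by have := S.d_pos; unfold Sys.s; linarith

theorem tau_pos : 0 < S.tau := by
  have h1 := S.d_pos; have h2 := c_pos S; have h3 := eta_pos S
  unfold Sys.tau Sys.ep; positivity

theorem ec_le (k : ℕ) : ec S.d k ≤ k := by
  rw [ec]
  apply Nat.floor_le_of_le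
  have := S.d_pos
  have h : (0 : ℝ) ≤ k := Nat.cast_nonneg k
  nlinarith

theorem cell_sub {k j n : ℕ} (hj : j < nc S.d k) (hn : n ∈ cell S.d k j) : 2 ^ k ≤ n ∧ n < 2 ^ (k + 1) := by
  rw [cell, mem_Ico] at hn
  rw [nc] at hj
  have he := ec_le S k
  have h1 : (j + 1) * 2 ^ ec S.d k ≤ 2 ^ (k - ec S.d k) * 2 ^ ec S.d k := Nat.mul_le_mul_right _ hj
  have h2 : 2 ^ (k - ec S.d k) * 2 ^ ec S.d k = 2 ^ k := by rw [← pow_add]; congr 1; omega
  rw [pow_succ]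
  omega

theorem mem_badc {k j : ℕ} : j ∈ S.badc k ↔ j < nc S.d k ∧ S.bad k j := by
  rw [Sys.badc, mem_filter, mem_range]

theorem pr_mul_base {m : ℕ} (hm : 1 ≤ m) : S.pr m * S.base m = (m : ℝ) ^ (-(1 - S.s + S.tau)) := by
  have h : (0 : ℝ) < m := by exact_mod_cast hm
  rw [Sys.pr, Sys.base, ← Real.rpow_add h]
  congr 1
  unfold Sys.hh
  ring

/-- facts about a candidate -/
theorem cand_facts {k j : ℕ} (hk : S.K ≤ k) (hj : j ∈ S.badc k) {x : ℕ × ℕ} (hx : x ∈ S.Cand k j) :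
    x.1.Prime ∧ (2 : ℝ) ^ ((k : ℝ) / 3) ≤ x.1 ∧ 1 < x.2 ∧ x.1 < 2 ^ (k + 1) ∧ x.2 < 2 ^ (k + 1) := by
  obtain ⟨h1, h2⟩ := (mem_badc S).1 hj
  obtain ⟨c1, c2, c3, c4, c5, c6, c7⟩ := S.cand k hk j h1 h2 x hx
  have h3 := (cell_sub S h1 c5).2
  refine ⟨c1, c2, c4, lt_of_le_of_lt ?_ h3, lt_of_le_of_lt ?_ h3⟩
  · exact Nat.le_mul_of_pos_right _ (by omega)
  · exact Nat.le_mul_of_pos_left _ c1.pos

/-- WOLE for one `k` -/
theorem wo_le {k0 : ℕ} {R : Set ℕ} (hR : S.Good k0 R) {k j : ℕ} (hk : k0 ≤ k) (hK : S.K ≤ k) (hj : j ∈ S.badc k)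
    {m : ℕ} (hm : 1 ≤ m) : 0 ≤ S.wo R k j m ∧ S.wo R k j m ≤ (2 / S.c1) / (k : ℝ) ^ 2 * S.wd k m := by
  obtain ⟨h1, h2⟩ := (mem_badc S).1 hj
  have hlow := hR.lower k hk j hj
  have hmany := S.many k hK j h1 h2
  have hkpos : (0 : ℝ) < k := by
    have : 0 < k := lt_of_lt_of_le S.K_pos hK
    exact_mod_cast this
  have hc1 := S.c1_pos
  have hNN : S.c1 * 2 ^ ec S.d k / k ^ 2 / 2 ≤ S.NN R k j := by linarith
  have hNpos : 0 < S.c1 * 2 ^ ec S.d k / (k : ℝ) ^ 2 / 2 := by positivity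
  have hm0 : (0 : ℝ) < m := by exact_mod_cast hm
  have hval : S.wo R k j m = S.G k / S.NN R k j * (m : ℝ) ^ (1 - S.s + S.tau) := by
    rw [Sys.wo, mul_assoc, pr_mul_base S hm, Real.rpow_neg hm0.le]
    have : 0 < (m : ℝ) ^ (1 - S.s + S.tau) := Real.rpow_pos_of_pos hm0 _
    field_simp
  have hG : 0 < S.G k := by rw [Sys.G]; positivity
  have hmp : 0 < (m : ℝ) ^ (1 - S.s + S.tau) := Real.rpow_pos_of_pos hm0 _
  constructor
  · rw [hval]
    have : 0 < S.NN R k j := lt_of_lt_of_le hNpos hNN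
    positivity
  · rw [hval, Sys.wd, ← mul_assoc]
    apply mul_le_mul_of_nonneg_right _ hmp.le
    calc S.G k / S.NN R k j ≤ S.G k / (S.c1 * 2 ^ ec S.d k / k ^ 2 / 2) :=
          div_le_div_of_nonneg_left hG.le hNpos hNN
      _ = (2 / S.c1) / (k : ℝ) ^ 2 * (2 : ℝ) ^ ((S.s - 1) * k) := by
          rw [Sys.G]
          have h3 : (0 : ℝ) < (2 : ℝ) ^ ec S.d k := by positivity
          field_simp

theorem woLe : WoLe := fun S => ⟨S.K, fun _ hk0 _ hR _ hk _ hj _ hm => wo_le S hR hk (hk0.trans hk) hj hm⟩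

/-- mass of the control primes with respect to a weight `h` -/
theorem ctl_mass {k0 : ℕ} {R : Set ℕ} (hR : S.Good k0 R) (hK : S.K ≤ k0) (h : ℕ → ℝ) (H : ℕ → ℝ)
    (hh0 : ∀ q, 0 ≤ h q) (hH : ∀ k, k0 ≤ k → ∀ q : ℕ, q.Prime → q < 2 ^ (k + 1) → h q ≤ H k * (q : ℝ) ^ (-S.s))
    (hH0 : ∀ k, 0 ≤ H k) (κ : ℕ → ℕ) (hκ : ∀ p, κ p ≤ top p) (N : ℕ) :
    ∑ p ∈ (Icc 1 N).filter Nat.Prime, S.ctl k0 (κ p) R p * h p ≤
      ∑ k ∈ Ico k0 (top N), (2 / S.c1) / (k : ℝ) ^ 2 * H k * (2 : ℝ) ^ (-(S.c / 4) * (k : ℝ)) := by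
  have hcw : ∀ k, k0 ≤ k → ∀ j ∈ S.badc k, ∀ q, 0 ≤ S.cw R k j q := by
    intro k hk j hj q
    rw [Sys.cw]
    refine Finset.sum_nonneg fun x hx => ?_
    have hx' := (mem_filter.1 (mem_filter.1 hx).1).1
    exact (wo_le S hR hk (hK.trans hk) hj (cand_facts S (hK.trans hk) hj hx').2.2.1.le).1
  have h1 : ∀ p ∈ (Icc 1 N).filter Nat.Prime, S.ctl k0 (κ p) R p * h p ≤
      ∑ k ∈ Ico k0 (top N), ∑ j ∈ S.badc k, S.cw R k j p * h p := by
    intro p hp
    have hpN : p ≤ N := (mem_Icc.1 (mem_filter.1 hp).1).2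
    have htop : κ p ≤ top N := by
      refine (hκ p).trans ?_
      unfold top
      have := Nat.log_mono_right (b := 2) hpN
      omega
    simp_rw [← Finset.sum_mul]
    apply mul_le_mul_of_nonneg_right _ (hh0 p)
    rw [Sys.ctl]
    apply Finset.sum_le_sum_of_subset_of_nonneg
    · exact Ico_subset_Ico_right htop
    · intro k hk _
      exact Finset.sum_nonneg fun j hj => hcw k (mem_Ico.1 hk).1 j hj p
  refine (Finset.sum_le_sum h1).trans ?_
  rw [Finset.sum_comm]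
  refine Finset.sum_le_sum fun k hk => ?_
  obtain ⟨hk1, hk2⟩ := mem_Ico.1 hk
  rw [Finset.sum_comm]
  have hkpos : (0 : ℝ) < k := by
    have : 0 < k := lt_of_lt_of_le S.K_pos (hK.trans hk1)
    exact_mod_cast this
  have hc1 := S.c1_pos
  have hmass := hR.massC k hk1
  have h2 : ∀ j ∈ S.badc k, ∑ p ∈ (Icc 1 N).filter Nat.Prime, S.cw R k j p * h p ≤
      ∑ x ∈ S.act R k j, (2 / S.c1) / (k : ℝ) ^ 2 * H k * (S.wd k x.2 * (x.1 : ℝ) ^ (-S.s)) := by
    intro j hj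
    have h3 : ∑ p ∈ (Icc 1 N).filter Nat.Prime, S.cw R k j p * h p ≤ ∑ x ∈ S.act R k j, S.wo R k j x.2 * h x.1 := by
      have h4 : ∑ p ∈ (Icc 1 N).filter Nat.Prime, S.cw R k j p * h p
          = ∑ p ∈ (Icc 1 N).filter Nat.Prime, ∑ x ∈ (S.act R k j).filter (fun x => x.1 = p), S.wo R k j x.2 * h x.1 := by
        refine Finset.sum_congr rfl fun p _ => ?_
        rw [Sys.cw, Finset.sum_mul]
        refine Finset.sum_congr rfl fun x hx => ?_
        rw [(mem_filter.1 hx).2]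
      rw [h4, ← Finset.sum_biUnion]
      · apply Finset.sum_le_sum_of_subset_of_nonneg
        · intro x hx
          rw [mem_biUnion] at hx
          obtain ⟨p, -, hx⟩ := hx
          exact (mem_filter.1 hx).1
        · intro x hx _
          have hx' := (mem_filter.1 hx).1
          exact mul_nonneg (wo_le S hR hk1 (hK.trans hk1) hj (cand_facts S (hK.trans hk1) hj hx').2.2.1.le).1 (hh0 _)
      · intro a _ b _ hab
        apply Finset.disjoint_filter.2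
        intro x _ h5 h6
        exact hab (h5.symm.trans h6)
    refine h3.trans (Finset.sum_le_sum fun x hx => ?_)
    have hx' := (mem_filter.1 hx).1
    obtain ⟨f1, f2, f3, f4, f5⟩ := cand_facts S (hK.trans hk1) hj hx'
    obtain ⟨w1, w2⟩ := wo_le S hR hk1 (hK.trans hk1) hj (R := R) (m := x.2) f3.le
    calc S.wo R k j x.2 * h x.1 ≤ ((2 / S.c1) / (k : ℝ) ^ 2 * S.wd k x.2) * (H k * (x.1 : ℝ) ^ (-S.s)) :=
          mul_le_mul w2 (hH k hk1 x.1 f1 f4) (hh0 _) (w1.trans w2)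
      _ = _ := by ring
  refine (Finset.sum_le_sum h2).trans ?_
  simp_rw [← Finset.mul_sum]
  exact mul_le_mul_of_nonneg_left hmass (mul_nonneg (by positivity) (hH0 k))

/-! ### ordinary mass -/

theorem idx_lt {k n : ℕ} (h1 : 2 ^ k ≤ n) (h2 : n < 2 ^ (k + 1)) : Nat.log 2 n = k ∧ S.idx n < nc S.d k ∧
    n ∈ cell S.d k (S.idx n) := by
  have hlog : Nat.log 2 n = k := Nat.log_eq_of_pow_le_of_lt_pow h1 h2
  have he := ec_le S k
  have hpos : 0 < 2 ^ ec S.d k := by positivity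
  have h3 : 2 ^ (k - ec S.d k) * 2 ^ ec S.d k = 2 ^ k := by rw [← pow_add]; congr 1; omega
  refine ⟨hlog, ?_, ?_⟩
  · rw [Sys.idx, hlog, nc, Nat.div_lt_iff_lt_mul hpos, h3]
    rw [pow_succ] at h2
    omega
  · rw [Sys.idx, hlog, cell, mem_Ico]
    have h4 := Nat.div_mul_le_self (n - 2 ^ k) (2 ^ ec S.d k)
    have h5 := Nat.lt_div_mul_add (a := n - 2 ^ k) hpos
    have h6 : ((n - 2 ^ k) / 2 ^ ec S.d k + 1) * 2 ^ ec S.d k = (n - 2 ^ k) / 2 ^ ec S.d k * 2 ^ ec S.d k + 2 ^ ec S.d k := by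
      ring
    constructor <;> omega

theorem ordw_nonneg (k0 p : ℕ) : 0 ≤ S.ordw k0 p := by
  unfold Sys.ordw
  split_ifs
  · exact le_rfl
  · unfold Sys.phi0; positivity
  · exact le_rfl
  · unfold Sys.G; positivity

/-- ordinary mass of a cell -/
theorem ordw_cell {k0 k j : ℕ} (hk : k0 ≤ k) (P : Finset ℕ)
    (hP : ∀ p ∈ P, p.Prime ∧ 2 ^ k ≤ p ∧ p < 2 ^ (k + 1) ∧ S.idx p = j) : ∑ p ∈ P, S.ordw k0 p ≤ S.G k := by
  have hG : 0 ≤ S.G k := by unfold Sys.G; positivity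
  have h1 : ∀ p ∈ P, S.ordw k0 p ≤ S.G k / npr S.d k j := by
    intro p hp
    obtain ⟨a1, a2, a3, a4⟩ := hP p hp
    obtain ⟨b1, b2, b3⟩ := idx_lt S a2 a3
    have hk0 : 2 ^ k0 ≤ p := (Nat.pow_le_pow_right (by norm_num) hk).trans a2
    have hk0' : 2 ^ (k0 - 1) ≤ 2 ^ k0 := Nat.pow_le_pow_right (by norm_num) (by omega)
    unfold Sys.ordw
    rw [if_neg (by omega), if_neg (by omega), b1, a4]
    split_ifs
    · positivity
    · exact le_rfl
  have hsub : P ⊆ (cell S.d k j).filter Nat.Prime := by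
    intro p hp
    obtain ⟨a1, a2, a3, a4⟩ := hP p hp
    obtain ⟨b1, b2, b3⟩ := idx_lt S a2 a3
    rw [a4] at b3
    exact mem_filter.2 ⟨b3, a1⟩
  have hcard : P.card ≤ npr S.d k j := Finset.card_le_card hsub
  calc ∑ p ∈ P, S.ordw k0 p ≤ ∑ p ∈ P, S.G k / npr S.d k j := Finset.sum_le_sum h1
    _ = P.card * (S.G k / npr S.d k j) := by rw [Finset.sum_const, nsmul_eq_mul]
    _ ≤ npr S.d k j * (S.G k / npr S.d k j) := by
        apply mul_le_mul_of_nonneg_right _ (by positivity)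
        exact_mod_cast hcard
    _ ≤ S.G k := by
        rcases Nat.eq_zero_or_pos (npr S.d k j) with h | h
        · rw [h]; simp [hG]
        · have : (0 : ℝ) < npr S.d k j := by exact_mod_cast h
          rw [mul_div_cancel₀ _ this.ne']

/-- ordinary mass of a block -/
theorem ordw_block {k0 k : ℕ} (hk : k0 ≤ k) (P : Finset ℕ)
    (hP : ∀ p ∈ P, p.Prime ∧ 2 ^ k ≤ p ∧ p < 2 ^ (k + 1)) :
    ∑ p ∈ P, S.ordw k0 p ≤ (2 : ℝ) ^ (S.s * k) / k ^ 4 := by
  have hmaps : ∀ p ∈ P, S.idx p ∈ Finset.range (nc S.d k) := by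
    intro p hp
    obtain ⟨a1, a2, a3⟩ := hP p hp
    exact mem_range.2 (idx_lt S a2 a3).2.1
  rw [← Finset.sum_fiberwise_of_maps_to hmaps]
  have h1 : ∀ j ∈ Finset.range (nc S.d k), ∑ p ∈ P.filter (fun p => S.idx p = j), S.ordw k0 p ≤ S.G k := by
    intro j _
    apply ordw_cell S hk (j := j)
    intro p hp
    obtain ⟨b1, b2⟩ := mem_filter.1 hp
    obtain ⟨a1, a2, a3⟩ := hP p b1
    exact ⟨a1, a2, a3, b2⟩
  refine (Finset.sum_le_sum h1).trans (le_of_eq ?_)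
  rw [Finset.sum_const, Finset.card_range, nsmul_eq_mul, nc, Sys.G]
  push_cast
  have h2 : (2 : ℝ) ^ (k - ec S.d k) * 2 ^ ec S.d k = 2 ^ k := by
    rw [← pow_add]; congr 1; have := ec_le S k; omega
  have h3 : (2 : ℝ) ^ (S.s * k) = 2 ^ k * (2 : ℝ) ^ ((S.s - 1) * k) := by
    rw [← Real.rpow_natCast, ← Real.rpow_add (by norm_num)]; congr 1; ring
  rw [h3, ← h2]
  ring

/-- `∑_{k ≥ k0} 1/k^2` -/
theorem sum_inv_sq {k0 M : ℕ} (hk0 : 2 ≤ k0) : ∑ k ∈ Ico k0 M, 1 / (k : ℝ) ^ 2 ≤ 2 / (k0 : ℝ) := by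
  have h : ∀ M, k0 ≤ M → ∑ k ∈ Ico k0 M, 1 / (k : ℝ) ^ 2 ≤ 1 / ((k0 : ℝ) - 1) - 1 / ((M : ℝ) - 1) := by
    intro M hM
    induction M, hM using Nat.le_induction with
    | base => simp
    | succ M hM ih =>
      rw [Finset.sum_Ico_succ_top hM]
      have hM2 : (2 : ℝ) ≤ M := by exact_mod_cast hk0.trans hM
      have h1 : 1 / (M : ℝ) ^ 2 ≤ 1 / ((M : ℝ) - 1) - 1 / M := by
        rw [div_sub_div _ _ (by linarith) (by linarith), div_le_div_iff₀ (by positivity) (by nlinarith)]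
        nlinarith
      push_cast
      have h2 : (M : ℝ) + 1 - 1 = M := by ring
      rw [h2]
      linarith
  have hk : (2 : ℝ) ≤ k0 := by exact_mod_cast hk0
  rcases le_or_gt k0 M with hM | hM
  · refine (h M hM).trans ?_
    have hM2 : (2 : ℝ) ≤ M := by exact_mod_cast hk0.trans hM
    have h3 : 0 ≤ 1 / ((M : ℝ) - 1) := by
      apply div_nonneg (by norm_num); linarith
    have h4 : 1 / ((k0 : ℝ) - 1) ≤ 2 / (k0 : ℝ) := by
      rw [div_le_div_iff₀ (by linarith) (by linarith)]; linarith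
    linarith
  · rw [Finset.Ico_eq_empty (by omega), Finset.sum_empty]
    positivity

/-- ordinary mass with the weight `p^(-s) (1 + log p)^2` -/
theorem ordw_mass {k0 : ℕ} (hk0 : 2 ≤ k0) (N : ℕ) :
    ∑ p ∈ (Icc 1 N).filter Nat.Prime, S.ordw k0 p * ((p : ℝ) ^ (-S.s) * (1 + Real.log p) ^ 2) ≤ 30 / (k0 : ℝ) := by
  have hs := s_pos S
  have hlogle : ∀ (p k : ℕ), 0 < p → p < 2 ^ (k + 1) → 1 + Real.log p ≤ (k : ℝ) + 2 := by
    intro p k hp0 hp
    have h1 : Real.log p ≤ Real.log (2 ^ (k + 1)) := by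
      apply Real.log_le_log (by exact_mod_cast hp0)
      exact_mod_cast hp.le
    rw [Real.log_pow] at h1
    have h2 := Real.log_two_lt_d9
    have h3 : (0 : ℝ) ≤ ((k + 1 : ℕ) : ℝ) := Nat.cast_nonneg _
    push_cast at h1 h3
    nlinarith
  have hkpos : (0 : ℝ) < k0 := by
    have : 0 < k0 := by omega
    exact_mod_cast this
  set P := (Icc 1 N).filter Nat.Prime with hP
  -- split
  have hsplit : ∑ p ∈ P, S.ordw k0 p * ((p : ℝ) ^ (-S.s) * (1 + Real.log p) ^ 2) =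
      ∑ p ∈ P.filter (fun p => p < 2 ^ k0), S.ordw k0 p * ((p : ℝ) ^ (-S.s) * (1 + Real.log p) ^ 2) +
      ∑ p ∈ P.filter (fun p => ¬ p < 2 ^ k0), S.ordw k0 p * ((p : ℝ) ^ (-S.s) * (1 + Real.log p) ^ 2) :=
    (Finset.sum_filter_add_sum_filter_not _ _ _).symm
  rw [hsplit]
  have hA : ∑ p ∈ P.filter (fun p => p < 2 ^ k0), S.ordw k0 p * ((p : ℝ) ^ (-S.s) * (1 + Real.log p) ^ 2) ≤ 8 / (k0 : ℝ) := by
    have h1 : ∑ p ∈ P.filter (fun p => p < 2 ^ k0), S.ordw k0 p * ((p : ℝ) ^ (-S.s) * (1 + Real.log p) ^ 2) ≤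
        ∑ p ∈ Ico (2 ^ (k0 - 1)) (2 ^ k0), S.phi0 k0 * (((2 : ℝ) ^ (S.s * (1 - k0))) * (k0 + 1) ^ 2) := by
      have hnn : 0 ≤ S.phi0 k0 := by unfold Sys.phi0; positivity
      calc ∑ p ∈ P.filter (fun p => p < 2 ^ k0), S.ordw k0 p * ((p : ℝ) ^ (-S.s) * (1 + Real.log p) ^ 2)
          = ∑ p ∈ (P.filter (fun p => p < 2 ^ k0)).filter (fun p => 2 ^ (k0 - 1) ≤ p),
              S.ordw k0 p * ((p : ℝ) ^ (-S.s) * (1 + Real.log p) ^ 2) := by
            symm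
            apply Finset.sum_filter_of_ne
            intro p hp hne
            by_contra hcon
            apply hne
            rw [Sys.ordw, if_pos (by omega), zero_mul]
        _ ≤ ∑ p ∈ (P.filter (fun p => p < 2 ^ k0)).filter (fun p => 2 ^ (k0 - 1) ≤ p),
              S.phi0 k0 * (((2 : ℝ) ^ (S.s * (1 - k0))) * (k0 + 1) ^ 2) := by
            refine Finset.sum_le_sum fun p hp => ?_
            rw [mem_filter, mem_filter, hP, mem_filter, mem_Icc] at hp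
            obtain ⟨⟨⟨⟨p1, p2⟩, p3⟩, p4⟩, p5⟩ := hp
            have e1 : S.ordw k0 p = S.phi0 k0 := by
              rw [Sys.ordw, if_neg (by omega), if_pos p4]
            rw [e1]
            apply mul_le_mul_of_nonneg_left _ hnn
            apply mul_le_mul
            · have h6 : (2 : ℝ) ^ (S.s * (1 - k0)) = ((2 : ℝ) ^ ((k0 : ℝ) - 1)) ^ (-S.s) := by
                rw [← Real.rpow_mul (by norm_num)]; congr 1; ring
              rw [h6]
              apply Real.rpow_le_rpow_of_nonpos (by positivity) _ (by linarith)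
              have h7 : (2 : ℝ) ^ ((k0 : ℝ) - 1) = ((2 ^ (k0 - 1) : ℕ) : ℝ) := by
                have : ((k0 : ℝ) - 1) = ((k0 - 1 : ℕ) : ℝ) := by
                  rw [Nat.cast_sub (by omega)]; simp
                rw [this, Real.rpow_natCast]; push_cast; rfl
              rw [h7]; exact_mod_cast p5
            · apply pow_le_pow_left₀ (by have := Real.log_natCast_nonneg p; linarith)
              have h8 := hlogle p (k0 - 1) p1 (by
                have : k0 - 1 + 1 = k0 := by omega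
                rw [this]; exact p4)
              rw [Nat.cast_sub (by omega)] at h8
              push_cast at h8
              linarith
            · positivity
            · positivity
        _ ≤ _ := by
            apply Finset.sum_le_sum_of_subset_of_nonneg
            · intro p hp
              rw [mem_filter, mem_filter] at hp
              exact mem_Ico.2 ⟨hp.2, hp.1.2⟩
            · intro _ _ _
              positivity
    refine h1.trans ?_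
    rw [Finset.sum_const, Nat.card_Ico, nsmul_eq_mul, Sys.phi0]
    have h9 : ((2 ^ k0 - 2 ^ (k0 - 1) : ℕ) : ℝ) = (2 : ℝ) ^ (k0 : ℝ) / 2 := by
      have : 2 ^ k0 = 2 * 2 ^ (k0 - 1) := by rw [← pow_succ']; congr 1; omega
      have h10 : (2 ^ k0 - 2 ^ (k0 - 1) : ℕ) = 2 ^ (k0 - 1) := by omega
      rw [h10, Real.rpow_natCast]
      have h11 : ((2 : ℝ) ^ k0) = 2 * 2 ^ (k0 - 1) := by exact_mod_cast this
      rw [h11]; push_cast; ring
    rw [h9]
    have h12 : (2 : ℝ) ^ (k0 : ℝ) / 2 * ((2 : ℝ) ^ ((S.s - 1) * k0) / (k0 : ℝ) ^ 3 * ((2 : ℝ) ^ (S.s * (1 - k0)) * ((k0 : ℝ) + 1) ^ 2))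
        = ((2 : ℝ) ^ (k0 : ℝ) * (2 : ℝ) ^ ((S.s - 1) * k0) * (2 : ℝ) ^ (S.s * (1 - k0))) * (((k0 : ℝ) + 1) ^ 2 / (2 * (k0 : ℝ) ^ 3)) := by
      field_simp
    rw [h12, ← Real.rpow_add (by norm_num), ← Real.rpow_add (by norm_num)]
    have h13 : (k0 : ℝ) + (S.s - 1) * k0 + S.s * (1 - k0) = S.s := by ring
    rw [h13]
    have h14 : (2 : ℝ) ^ S.s ≤ 2 := by
      have : S.s ≤ 1 := by
        have h1 := S.d_le; have h2 := S.c_le; have h3 := S.eta_le; have h4 := S.del_le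
        unfold Sys.s; linarith
      calc (2 : ℝ) ^ S.s ≤ (2 : ℝ) ^ (1 : ℝ) := Real.rpow_le_rpow_of_exponent_le (by norm_num) this
        _ = 2 := Real.rpow_one 2
    have h15 : ((k0 : ℝ) + 1) ^ 2 / (2 * (k0 : ℝ) ^ 3) ≤ 4 / (k0 : ℝ) := by
      rw [div_le_div_iff₀ (by positivity) hkpos]
      have hk2 : (1 : ℝ) ≤ k0 := by
        have : 1 ≤ k0 := by omega
        exact_mod_cast this
      have : ((k0 : ℝ) + 1) ^ 2 ≤ 8 * (k0 : ℝ) ^ 2 := by nlinarith
      nlinarith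
    calc (2 : ℝ) ^ S.s * (((k0 : ℝ) + 1) ^ 2 / (2 * (k0 : ℝ) ^ 3)) ≤ 2 * (4 / (k0 : ℝ)) :=
          mul_le_mul h14 h15 (by positivity) (by norm_num)
      _ = 8 / (k0 : ℝ) := by ring
  have hB : ∑ p ∈ P.filter (fun p => ¬ p < 2 ^ k0), S.ordw k0 p * ((p : ℝ) ^ (-S.s) * (1 + Real.log p) ^ 2) ≤ 8 / (k0 : ℝ) := by
    set Q := P.filter (fun p => ¬ p < 2 ^ k0) with hQ
    have hQm : ∀ p ∈ Q, p.Prime ∧ 2 ^ k0 ≤ p ∧ p ≤ N ∧ 0 < p := by
      intro p hp
      rw [hQ, mem_filter, hP, mem_filter, mem_Icc] at hp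
      exact ⟨hp.1.2, by omega, hp.1.1.2, hp.1.1.1⟩
    have hmaps : ∀ p ∈ Q, Nat.log 2 p ∈ Ico k0 (Nat.log 2 N + 1) := by
      intro p hp
      obtain ⟨a1, a2, a3, a4⟩ := hQm p hp
      rw [mem_Ico]
      refine ⟨?_, ?_⟩
      · exact Nat.le_log_of_pow_le (by norm_num) a2
      · exact Nat.lt_succ_of_le (Nat.log_mono_right a3)
    rw [← Finset.sum_fiberwise_of_maps_to hmaps]
    have h1 : ∀ k ∈ Ico k0 (Nat.log 2 N + 1), ∑ p ∈ Q.filter (fun p => Nat.log 2 p = k),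
        S.ordw k0 p * ((p : ℝ) ^ (-S.s) * (1 + Real.log p) ^ 2) ≤ 4 * (1 / (k : ℝ) ^ 2) := by
      intro k hk
      obtain ⟨hk1, -⟩ := mem_Ico.1 hk
      have hkp : (2 : ℝ) ≤ k := by exact_mod_cast hk0.trans hk1
      have hfib : ∀ p ∈ Q.filter (fun p => Nat.log 2 p = k), p.Prime ∧ 2 ^ k ≤ p ∧ p < 2 ^ (k + 1) := by
        intro p hp
        obtain ⟨b1, b2⟩ := mem_filter.1 hp
        obtain ⟨a1, a2, a3, a4⟩ := hQm p b1
        refine ⟨a1, ?_, ?_⟩
        · rw [← b2]; exact Nat.pow_log_le_self 2 (by omega)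
        · rw [← b2]; exact Nat.lt_pow_succ_log_self (by norm_num) p
      calc ∑ p ∈ Q.filter (fun p => Nat.log 2 p = k), S.ordw k0 p * ((p : ℝ) ^ (-S.s) * (1 + Real.log p) ^ 2)
          ≤ ∑ p ∈ Q.filter (fun p => Nat.log 2 p = k), S.ordw k0 p * ((2 : ℝ) ^ (-S.s * k) * ((k : ℝ) + 2) ^ 2) := by
            refine Finset.sum_le_sum fun p hp => ?_
            obtain ⟨b1, b2, b3⟩ := hfib p hp
            apply mul_le_mul_of_nonneg_left _ (ordw_nonneg S k0 p)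
            apply mul_le_mul
            · have h6 : (2 : ℝ) ^ (-S.s * k) = ((2 : ℝ) ^ (k : ℝ)) ^ (-S.s) := by
                rw [← Real.rpow_mul (by norm_num)]; congr 1; ring
              rw [h6]
              apply Real.rpow_le_rpow_of_nonpos (by positivity) _ (by linarith)
              rw [Real.rpow_natCast]
              exact_mod_cast b2
            · apply pow_le_pow_left₀ (by have := Real.log_natCast_nonneg p; linarith)
              exact hlogle p k b1.pos b3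
            · positivity
            · positivity
        _ = (∑ p ∈ Q.filter (fun p => Nat.log 2 p = k), S.ordw k0 p) * ((2 : ℝ) ^ (-S.s * k) * ((k : ℝ) + 2) ^ 2) := by
            rw [Finset.sum_mul]
        _ ≤ ((2 : ℝ) ^ (S.s * k) / (k : ℝ) ^ 4) * ((2 : ℝ) ^ (-S.s * k) * ((k : ℝ) + 2) ^ 2) := by
            apply mul_le_mul_of_nonneg_right (ordw_block S hk1 _ hfib)
            positivity
        _ = ((k : ℝ) + 2) ^ 2 / (k : ℝ) ^ 4 := by
            have : (2 : ℝ) ^ (S.s * (k : ℝ)) * (2 : ℝ) ^ (-S.s * (k : ℝ)) = 1 := by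
              rw [← Real.rpow_add (by norm_num)]; simp
            calc (2 : ℝ) ^ (S.s * (k : ℝ)) / (k : ℝ) ^ 4 * ((2 : ℝ) ^ (-S.s * (k : ℝ)) * ((k : ℝ) + 2) ^ 2)
                = ((2 : ℝ) ^ (S.s * (k : ℝ)) * (2 : ℝ) ^ (-S.s * (k : ℝ))) * (((k : ℝ) + 2) ^ 2 / (k : ℝ) ^ 4) := by ring
              _ = _ := by rw [this, one_mul]
        _ ≤ 4 * (1 / (k : ℝ) ^ 2) := by
            rw [mul_one_div, div_le_div_iff₀ (by positivity) (by positivity)]
            have : ((k : ℝ) + 2) ^ 2 ≤ 4 * (k : ℝ) ^ 2 := by nlinarith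
            nlinarith [sq_nonneg ((k : ℝ))]
    refine (Finset.sum_le_sum h1).trans ?_
    rw [← Finset.mul_sum]
    have := sum_inv_sq (k0 := k0) (M := Nat.log 2 N + 1) hk0
    calc 4 * ∑ k ∈ Ico k0 (Nat.log 2 N + 1), 1 / (k : ℝ) ^ 2 ≤ 4 * (2 / (k0 : ℝ)) :=
          mul_le_mul_of_nonneg_left this (by norm_num)
      _ = 8 / (k0 : ℝ) := by ring
  calc _ ≤ 8 / (k0 : ℝ) + 8 / (k0 : ℝ) := add_le_add hA hB
    _ ≤ 30 / (k0 : ℝ) := by rw [← add_div]; exact div_le_div_of_nonneg_right (by norm_num) hkpos.le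

/-! ### SumW -/

theorem ctl_nonneg {k0 : ℕ} {R : Set ℕ} (hR : S.Good k0 R) (hK : S.K ≤ k0) (k1 q : ℕ) : 0 ≤ S.ctl k0 k1 R q := by
  rw [Sys.ctl]
  refine Finset.sum_nonneg fun k hk => Finset.sum_nonneg fun j hj => ?_
  have hk1 := (mem_Ico.1 hk).1
  rw [Sys.cw]
  refine Finset.sum_nonneg fun x hx => ?_
  have hx' := (mem_filter.1 (mem_filter.1 hx).1).1
  exact (wo_le S hR hk1 (hK.trans hk1) hj (cand_facts S (hK.trans hk1) hj hx').2.2.1.le).1

theorem bR_nonneg (R : Set ℕ) (p : ℕ) : 0 ≤ S.bR R p := by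
  unfold Sys.bR Sys.base
  split_ifs
  · positivity
  · exact le_rfl

theorem geom_tail {r : ℝ} (h0 : 0 ≤ r) (h1 : r < 1) (a M : ℕ) : ∑ k ∈ Ico a M, r ^ k ≤ r ^ a / (1 - r) := by
  rcases le_or_gt a M with h | h
  · rw [geom_sum_Ico h1.ne h, ← neg_div_neg_eq, neg_sub, neg_sub]
    apply div_le_div_of_nonneg_right _ (by linarith)
    have : 0 ≤ r ^ M := pow_nonneg h0 M
    linarith
  · rw [Finset.Ico_eq_empty (by omega), Finset.sum_empty]
    have : 0 ≤ r ^ a := pow_nonneg h0 a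
    apply div_nonneg this; linarith

theorem ev_small (C a : ℝ) (ha : 0 < a) : ∀ᶠ k : ℕ in atTop, C * (2 : ℝ) ^ (-a * (k : ℝ)) ≤ 1 / (k : ℝ) := by
  have hr : |(2 : ℝ) ^ (-a)| < 1 := by
    rw [abs_of_pos (by positivity)]
    exact Real.rpow_lt_one_of_one_lt_of_neg (by norm_num) (by linarith)
  have h := (tendsto_pow_const_mul_const_pow_of_abs_lt_one 1 hr).const_mul C
  rw [mul_zero] at h
  filter_upwards [h.eventually (eventually_le_nhds (show (0 : ℝ) < 1 by norm_num)), eventually_ge_atTop 1] with k hk hk1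
  have hk0 : (0 : ℝ) < k := by exact_mod_cast hk1
  have h2 : ((2 : ℝ) ^ (-a)) ^ k = (2 : ℝ) ^ (-a * (k : ℝ)) := by
    rw [← Real.rpow_natCast, ← Real.rpow_mul (by norm_num)]
  rw [h2, pow_one] at hk
  rw [le_div_iff₀ hk0]
  linarith

theorem one_add_log_le' {p k : ℕ} (hp : p < 2 ^ (k + 1)) : 1 + Real.log p ≤ (k : ℝ) + 2 := by
  rcases Nat.eq_zero_or_pos p with h0 | h0
  · subst h0
    have : (0 : ℝ) ≤ k := Nat.cast_nonneg k
    simp; linarith
  have h1 : Real.log p ≤ Real.log (2 ^ (k + 1)) := by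
    apply Real.log_le_log (by exact_mod_cast h0)
    exact_mod_cast hp.le
  rw [Real.log_pow] at h1
  have h2 := Real.log_two_lt_d9
  have h3 : (0 : ℝ) ≤ ((k + 1 : ℕ) : ℝ) := Nat.cast_nonneg _
  push_cast at h1 h3
  nlinarith

theorem rpow_to_pow (a : ℝ) (k : ℕ) : (2 : ℝ) ^ (-a * (k : ℝ)) = ((2 : ℝ) ^ (-a)) ^ k := by
  rw [← Real.rpow_natCast, ← Real.rpow_mul (by norm_num)]

theorem r_lt_one {a : ℝ} (ha : 0 < a) : (2 : ℝ) ^ (-a) < 1 :=
  Real.rpow_lt_one_of_one_lt_of_neg (by norm_num) (by linarith)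

/-- the sum over the primes in SUMW -/
theorem sumW_primes : ∃ K0 : ℕ, ∀ k0 : ℕ, K0 ≤ k0 → ∀ R : Set ℕ, S.Good k0 R → ∀ N : ℕ,
    ∑ p ∈ (Icc 1 N).filter Nat.Prime, S.Wp k0 R p * ((p : ℝ) ^ (-S.s) * (1 + Real.log p) ^ 2) ≤ 63 / (k0 : ℝ) := by
  have hτ := tau_pos S
  have hc := c_pos S
  set r := (2 : ℝ) ^ (-(S.c / 4)) with hr
  have hr0 : 0 ≤ r := by positivity
  have hr1 : r < 1 := r_lt_one (by linarith)
  obtain ⟨K1, hK1⟩ := eventually_atTop.1 (ev_small 1 (S.tau / 10) (by linarith))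
  obtain ⟨K2, hK2⟩ := eventually_atTop.1 (ev_small (2 / S.c1 * 4 / (1 - r)) (S.c / 4) (by linarith))
  refine ⟨max (max K1 K2) (max S.K 2), fun k0 hk0 R hR N => ?_⟩
  have hkK1 : K1 ≤ k0 := le_trans (le_trans (le_max_left _ _) (le_max_left _ _)) hk0
  have hkK2 : K2 ≤ k0 := le_trans (le_trans (le_max_right _ _) (le_max_left _ _)) hk0
  have hkK : S.K ≤ k0 := le_trans (le_trans (le_max_left _ _) (le_max_right _ _)) hk0
  have hk2 : 2 ≤ k0 := le_trans (le_trans (le_max_right _ _) (le_max_right _ _)) hk0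
  have b1 := hK1 k0 hkK1
  have b2 := hK2 k0 hkK2
  set h : ℕ → ℝ := fun p => (p : ℝ) ^ (-S.s) * (1 + Real.log p) ^ 2 with hh
  have hh0 : ∀ p, 0 ≤ h p := fun p => by simp only [hh]; positivity
  have e0 : ∑ p ∈ (Icc 1 N).filter Nat.Prime, S.Wp k0 R p * ((p : ℝ) ^ (-S.s) * (1 + Real.log p) ^ 2) =
      ∑ p ∈ (Icc 1 N).filter Nat.Prime, S.bR R p * h p + 2 * ∑ p ∈ (Icc 1 N).filter Nat.Prime, S.ordw k0 p * h p +
      2 * ∑ p ∈ (Icc 1 N).filter Nat.Prime, S.ctl k0 (top p) R p * h p := by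
    rw [Finset.mul_sum, Finset.mul_sum, ← Finset.sum_add_distrib, ← Finset.sum_add_distrib]
    refine Finset.sum_congr rfl fun p _ => ?_
    simp only [hh, Sys.Wp]
    ring
  rw [e0]
  have c1 : ∑ p ∈ (Icc 1 N).filter Nat.Prime, S.bR R p * h p ≤ (2 : ℝ) ^ (-(S.tau / 10) * (k0 : ℝ)) := by
    refine le_trans (le_of_eq ?_) (hR.massR (((Icc 1 N).filter Nat.Prime).filter (fun p => p ∈ R))
      (fun r hr => (mem_filter.1 hr).2))
    rw [Finset.sum_filter (p := fun p => p ∈ R)]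
    refine Finset.sum_congr rfl fun p _ => ?_
    simp only [hh, Sys.bR]
    split_ifs
    · ring
    · ring
  have c2 := ordw_mass S hk2 N
  have c3 := ctl_mass S hR hkK h (fun k => ((k : ℝ) + 2) ^ 2) hh0
    (by
      intro k _ q _ hq
      simp only [hh]
      rw [mul_comm]
      apply mul_le_mul_of_nonneg_right _ (by positivity)
      apply pow_le_pow_left₀ (by have := Real.log_natCast_nonneg q; linarith)
      exact one_add_log_le' hq)
    (fun k => by positivity) top (fun _ => le_rfl) N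
  have c4 : ∑ k ∈ Ico k0 (top N), (2 / S.c1) / (k : ℝ) ^ 2 * ((k : ℝ) + 2) ^ 2 * (2 : ℝ) ^ (-(S.c / 4) * (k : ℝ)) ≤
      2 / S.c1 * 4 / (1 - r) * (2 : ℝ) ^ (-(S.c / 4) * (k0 : ℝ)) := by
    have d1 : ∀ k ∈ Ico k0 (top N), (2 / S.c1) / (k : ℝ) ^ 2 * ((k : ℝ) + 2) ^ 2 * (2 : ℝ) ^ (-(S.c / 4) * (k : ℝ)) ≤
        2 / S.c1 * 4 * r ^ k := by
      intro k hk
      have hk1 : (2 : ℝ) ≤ k := by exact_mod_cast hk2.trans (mem_Ico.1 hk).1
      have hc1 := S.c1_pos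
      rw [rpow_to_pow, ← hr]
      apply mul_le_mul_of_nonneg_right _ (pow_nonneg hr0 k)
      rw [div_mul_eq_mul_div, div_le_iff₀ (by positivity)]
      have : ((k : ℝ) + 2) ^ 2 ≤ 4 * (k : ℝ) ^ 2 := by nlinarith
      have h3 : 0 < 2 / S.c1 := by positivity
      calc 2 / S.c1 * ((k : ℝ) + 2) ^ 2 ≤ 2 / S.c1 * (4 * (k : ℝ) ^ 2) := mul_le_mul_of_nonneg_left this h3.le
        _ = _ := by ring
    refine (Finset.sum_le_sum d1).trans ?_
    rw [← Finset.mul_sum]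
    have hc1 := S.c1_pos
    calc 2 / S.c1 * 4 * ∑ k ∈ Ico k0 (top N), r ^ k ≤ 2 / S.c1 * 4 * (r ^ k0 / (1 - r)) :=
          mul_le_mul_of_nonneg_left (geom_tail hr0 hr1 _ _) (by positivity)
      _ = _ := by rw [rpow_to_pow]; ring
  have hkpos : (0 : ℝ) < k0 := by
    have : 0 < k0 := by omega
    exact_mod_cast this
  have e1 : (63 : ℝ) / k0 = 1 / k0 + 2 * (30 / k0) + 2 * (1 / k0) := by ring
  rw [e1]
  have c2' : ∑ p ∈ (Icc 1 N).filter Nat.Prime, S.ordw k0 p * h p ≤ 30 / (k0 : ℝ) := c2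
  have c3' := c3.trans (c4.trans b2)
  rw [one_mul] at b1
  linarith [c1.trans b1]

theorem W_le (k0 : ℕ) (R : Set ℕ) {n : ℕ} (hn : n ≠ 0) (hW : ∀ p, p.Prime → 0 ≤ S.Wp k0 R p) :
    S.W k0 R n * (n : ℝ) ^ (-S.s) * (1 + Real.log n) ^ 2 ≤
      cm (fun p => S.Wp k0 R p * ((p : ℝ) ^ (-S.s) * (1 + Real.log p) ^ 2)) n := by
  have h1 : cm (fun p => S.Wp k0 R p * ((p : ℝ) ^ (-S.s) * (1 + Real.log p) ^ 2)) n =
      cm (fun p => S.Wp k0 R p) n * ((n : ℝ) ^ (-S.s) * (cm (fun p => 1 + Real.log p) n) ^ 2) := by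
    rw [cm_mul_fun (fun p => S.Wp k0 R p) (fun p => (p : ℝ) ^ (-S.s) * (1 + Real.log p) ^ 2),
      cm_mul_fun (fun p => (p : ℝ) ^ (-S.s)) (fun p => (1 + Real.log p) ^ 2), cm_rpow _ hn]
    have : (fun p : ℕ => (1 + Real.log p) ^ 2) = fun p : ℕ => (1 + Real.log p) * (1 + Real.log p) := by
      funext p; ring
    rw [this, cm_mul_fun (fun p : ℕ => 1 + Real.log p) (fun p : ℕ => 1 + Real.log p)]
    ring
  rw [h1, Sys.W, CM_eq _ hn, mul_assoc]
  apply mul_le_mul_of_nonneg_left _ (cm_nonneg hW n)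
  apply mul_le_mul_of_nonneg_left _ (by positivity)
  apply pow_le_pow_left₀ (by have := Real.log_natCast_nonneg n; linarith)
  exact one_add_log_le hn

theorem Wp_nonneg {k0 : ℕ} {R : Set ℕ} (hR : S.Good k0 R) (hK : S.K ≤ k0) (p : ℕ) : 0 ≤ S.Wp k0 R p := by
  have h1 := bR_nonneg S R p
  have h2 := ordw_nonneg S k0 p
  have h3 := ctl_nonneg S hR hK (top p) p
  unfold Sys.Wp
  linarith

theorem sumW : SumW := by
  intro S
  obtain ⟨K0, hK0⟩ := sumW_primes S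
  refine ⟨252, max K0 (max 126 S.K), fun k0 hk0 R hR T hT => ?_⟩
  have h1 := hK0 k0 ((le_max_left _ _).trans hk0) R hR
  have h126 : 126 ≤ k0 := le_trans (le_trans (le_max_left _ _) (le_max_right _ _)) hk0
  have hKK : S.K ≤ k0 := le_trans (le_trans (le_max_right _ _) (le_max_right _ _)) hk0
  have hk : (126 : ℝ) ≤ k0 := by exact_mod_cast h126
  have hW : ∀ p, p.Prime → 0 ≤ S.Wp k0 R p := fun p _ => Wp_nonneg S hR hKK p
  calc ∑ n ∈ T, S.W k0 R n * (n : ℝ) ^ (-S.s) * (1 + Real.log n) ^ 2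
      ≤ ∑ n ∈ T, cm (fun p => S.Wp k0 R p * ((p : ℝ) ^ (-S.s) * (1 + Real.log p) ^ 2)) n :=
        Finset.sum_le_sum fun n hn => W_le S k0 R (by have := hT n hn; omega) hW
    _ ≤ 4 * (63 / (k0 : ℝ)) := by
        apply sum_cm_small (fun p hp => mul_nonneg (hW p hp) (by positivity)) _ h1 T hT
        rw [div_le_iff₀ (by linarith)]; linarith
    _ = 252 / k0 := by ring

/-! ### Rank -/

theorem rank : Rank := by
  intro S
  have hc := c_pos S
  set r := (2 : ℝ) ^ (-(3 * S.c / 20)) with hr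
  have hr0 : 0 ≤ r := by positivity
  have hr1 : r < 1 := r_lt_one (by linarith)
  obtain ⟨K2, hK2⟩ := eventually_atTop.1 (ev_small (4 * (12 / S.c1 * (2 : ℝ) ^ (S.c / 10) / (1 - r))) (S.c / 10) (by linarith))
  refine ⟨max K2 (max S.K 2), fun k0 hk0 R hR T hT κ => ?_⟩
  have hkK2 : K2 ≤ k0 := le_trans (le_max_left _ _) hk0
  have hkK : S.K ≤ k0 := le_trans (le_trans (le_max_left _ _) (le_max_right _ _)) hk0
  have hk2 : 2 ≤ k0 := le_trans (le_trans (le_max_right _ _) (le_max_right _ _)) hk0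
  have b2 := hK2 k0 hkK2
  have hkr : (2 : ℝ) ≤ k0 := by exact_mod_cast hk2
  have hc1 := S.c1_pos
  set h : ℕ → ℝ := fun p => 6 * (p : ℝ) ^ (-S.s + S.c / 10) with hh
  have hh0 : ∀ p, 0 ≤ h p := fun p => by simp only [hh]; positivity
  have hF0 : ∀ p : ℕ, 0 ≤ S.ctl k0 (min (top p) κ) R p := fun p => ctl_nonneg S hR hkK _ p
  have c3 : ∀ N, ∑ p ∈ (Icc 1 N).filter Nat.Prime, S.ctl k0 (min (top p) κ) R p * h p ≤
      12 / S.c1 * (2 : ℝ) ^ (S.c / 10) / (1 - r) * (2 : ℝ) ^ (-(3 * S.c / 20) * (k0 : ℝ)) := by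
    intro N
    have a1 := ctl_mass S hR hkK h (fun k => 6 * (2 : ℝ) ^ (S.c / 10 * ((k : ℝ) + 1))) hh0
      (by
        intro k _ q hq1 hq
        simp only [hh]
        have hq0 : (0 : ℝ) < q := by exact_mod_cast hq1.pos
        rw [Real.rpow_add hq0, mul_comm ((q : ℝ) ^ (-S.s)), ← mul_assoc]
        apply mul_le_mul_of_nonneg_right _ (by positivity)
        apply mul_le_mul_of_nonneg_left _ (by norm_num)
        have h2 : (2 : ℝ) ^ (S.c / 10 * ((k : ℝ) + 1)) = ((2 : ℝ) ^ (k + 1)) ^ (S.c / 10) := by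
          rw [← Real.rpow_natCast, ← Real.rpow_mul (by norm_num)]; congr 1; push_cast; ring
        rw [h2]
        apply Real.rpow_le_rpow hq0.le _ (by linarith)
        exact_mod_cast hq.le)
      (fun k => by positivity) (fun p => min (top p) κ) (fun _ => min_le_left _ _) N
    refine a1.trans ?_
    have d1 : ∀ k ∈ Ico k0 (top N), (2 / S.c1) / (k : ℝ) ^ 2 * (6 * (2 : ℝ) ^ (S.c / 10 * ((k : ℝ) + 1))) *
        (2 : ℝ) ^ (-(S.c / 4) * (k : ℝ)) ≤ 12 / S.c1 * (2 : ℝ) ^ (S.c / 10) * r ^ k := by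
      intro k hk
      have hk1 : (2 : ℝ) ≤ k := by exact_mod_cast hk2.trans (mem_Ico.1 hk).1
      have e1 : r ^ k = (2 : ℝ) ^ (-(3 * S.c / 20) * (k : ℝ)) := by rw [hr, rpow_to_pow]
      rw [e1]
      have e2 : (2 : ℝ) ^ (S.c / 10 * ((k : ℝ) + 1)) * (2 : ℝ) ^ (-(S.c / 4) * (k : ℝ)) =
          (2 : ℝ) ^ (S.c / 10) * (2 : ℝ) ^ (-(3 * S.c / 20) * (k : ℝ)) := by
        rw [← Real.rpow_add (by norm_num), ← Real.rpow_add (by norm_num)]; congr 1; ring
      calc (2 / S.c1) / (k : ℝ) ^ 2 * (6 * (2 : ℝ) ^ (S.c / 10 * ((k : ℝ) + 1))) * (2 : ℝ) ^ (-(S.c / 4) * (k : ℝ))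
          = (1 / (k : ℝ) ^ 2) * (12 / S.c1 * ((2 : ℝ) ^ (S.c / 10 * ((k : ℝ) + 1)) * (2 : ℝ) ^ (-(S.c / 4) * (k : ℝ)))) := by
            ring
        _ ≤ 1 * (12 / S.c1 * ((2 : ℝ) ^ (S.c / 10 * ((k : ℝ) + 1)) * (2 : ℝ) ^ (-(S.c / 4) * (k : ℝ)))) := by
            apply mul_le_mul_of_nonneg_right _ (by positivity)
            rw [div_le_one (by positivity)]
            nlinarith
        _ = _ := by rw [e2]; ring
    refine (Finset.sum_le_sum d1).trans ?_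
    rw [← Finset.mul_sum]
    calc 12 / S.c1 * (2 : ℝ) ^ (S.c / 10) * ∑ k ∈ Ico k0 (top N), r ^ k
        ≤ 12 / S.c1 * (2 : ℝ) ^ (S.c / 10) * (r ^ k0 / (1 - r)) :=
          mul_le_mul_of_nonneg_left (geom_tail hr0 hr1 _ _) (by positivity)
      _ = _ := by rw [rpow_to_pow]; ring
  set B := 12 / S.c1 * (2 : ℝ) ^ (S.c / 10) / (1 - r) * (2 : ℝ) ^ (-(3 * S.c / 20) * (k0 : ℝ)) with hB
  have hBle : 4 * B ≤ (2 : ℝ) ^ (-(S.c / 20) * (k0 : ℝ)) * (1 / k0) := by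
    have e3 : 4 * B = (4 * (12 / S.c1 * (2 : ℝ) ^ (S.c / 10) / (1 - r)) * (2 : ℝ) ^ (-(S.c / 10) * (k0 : ℝ))) *
        (2 : ℝ) ^ (-(S.c / 20) * (k0 : ℝ)) := by
      have e4 : (2 : ℝ) ^ (-(3 * S.c / 20) * (k0 : ℝ)) = (2 : ℝ) ^ (-(S.c / 10) * (k0 : ℝ)) * (2 : ℝ) ^ (-(S.c / 20) * (k0 : ℝ)) := by
        rw [← Real.rpow_add (by norm_num)]; congr 1; ring
      rw [hB, e4]; ring
    rw [e3, mul_comm]
    exact mul_le_mul_of_nonneg_left b2 (by positivity)
  have hsmall : (2 : ℝ) ^ (-(S.c / 20) * (k0 : ℝ)) ≤ 1 := by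
    apply Real.rpow_le_one_of_one_le_of_nonpos (by norm_num)
    have : 0 ≤ S.c / 20 * (k0 : ℝ) := by positivity
    linarith
  have hk0inv : (1 : ℝ) / k0 ≤ 1 := by rw [div_le_one (by linarith)]; linarith
  have h4B1 : 4 * B ≤ 1 := hBle.trans (by
    calc (2 : ℝ) ^ (-(S.c / 20) * (k0 : ℝ)) * (1 / k0) ≤ 1 * 1 :=
          mul_le_mul hsmall hk0inv (by positivity) (by norm_num)
      _ = 1 := by norm_num)
  calc ∑ n ∈ T, CM (fun p => 6 * S.ctl k0 (min (top p) κ) R p) n * (n : ℝ) ^ (-S.s + S.c / 10)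
      = ∑ n ∈ T, cm (fun p => S.ctl k0 (min (top p) κ) R p * h p) n := by
        refine Finset.sum_congr rfl fun n hn => ?_
        have hn0 : n ≠ 0 := by have := hT n hn; omega
        rw [CM_eq _ hn0, ← cm_rpow _ hn0, ← cm_mul_fun]
        congr 1
        congr 1
        funext p
        simp only [hh]
        ring
    _ ≤ 4 * B := sum_cm_small (fun p _ => mul_nonneg (hF0 p) (hh0 p)) (by linarith) c3 T hT
    _ ≤ (2 : ℝ) ^ (-(S.c / 20) * (k0 : ℝ)) * (1 / k0) := hBle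
    _ ≤ (2 : ℝ) ^ (-(S.c / 20) * (k0 : ℝ)) := by
        have : (0 : ℝ) ≤ (2 : ℝ) ^ (-(S.c / 20) * (k0 : ℝ)) := by positivity
        nlinarith

/-! ### MassR1 -/

theorem massR1 : MassR1 := by
  intro S
  have hτ := tau_pos S
  set τ := S.tau with hτd
  have hsum : Summable (fun n : ℕ => (n : ℝ) ^ (-(1 + 0.03 * τ))) := by
    rw [Real.summable_nat_rpow]; linarith
  set Z := ∑' n : ℕ, (n : ℝ) ^ (-(1 + 0.03 * τ)) with hZ
  have hZ0 : 0 ≤ Z := tsum_nonneg fun n => by positivity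
  set C1 := (1 + 1 / (0.05 * τ)) ^ 2 with hC1
  obtain ⟨K0, hK0⟩ := eventually_atTop.1 (ev_small (C1 * Z) (0.007 * τ) (by positivity))
  refine ⟨max K0 1, fun k0 hk0 T hT => ?_⟩
  have h1 := hK0 k0 ((le_max_left _ _).trans hk0)
  have hk1 : (1 : ℝ) ≤ k0 := by exact_mod_cast (le_max_right _ _).trans hk0
  have hterm : ∀ r ∈ T, S.pr r * (S.base r * (r : ℝ) ^ (-S.s) * (1 + Real.log r) ^ 2) ≤
      (C1 * (2 : ℝ) ^ (-(0.174 * τ) * (k0 : ℝ))) * (r : ℝ) ^ (-(1 + 0.03 * τ)) := by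
    intro r hr
    have hr1 : (1 : ℝ) ≤ r := le_trans (Real.one_le_rpow (by norm_num) (by positivity)) (hT r hr)
    have hr0 : (0 : ℝ) < r := by linarith
    have hrn : 1 ≤ r := by exact_mod_cast hr1
    have e1 : S.pr r * (S.base r * (r : ℝ) ^ (-S.s) * (1 + Real.log r) ^ 2) =
        (r : ℝ) ^ (-(1 + τ)) * (1 + Real.log r) ^ 2 := by
      rw [← mul_assoc, ← mul_assoc, pr_mul_base S hrn, ← Real.rpow_add hr0]
      congr 2
      rw [hτd]; ring
    have e2 : 1 + Real.log r ≤ (1 + 1 / (0.05 * τ)) * (r : ℝ) ^ (0.05 * τ) := by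
      have a1 := Real.log_le_rpow_div hr0.le (show 0 < 0.05 * τ by positivity)
      have a2 : (1 : ℝ) ≤ (r : ℝ) ^ (0.05 * τ) := Real.one_le_rpow hr1 (by positivity)
      calc 1 + Real.log r ≤ (r : ℝ) ^ (0.05 * τ) + (r : ℝ) ^ (0.05 * τ) / (0.05 * τ) := add_le_add a2 a1
        _ = _ := by ring
    have e3 : (1 + Real.log r) ^ 2 ≤ C1 * (r : ℝ) ^ (0.1 * τ) := by
      have a0 : 0 ≤ 1 + Real.log r := by have := Real.log_nonneg hr1; linarith
      calc (1 + Real.log r) ^ 2 ≤ ((1 + 1 / (0.05 * τ)) * (r : ℝ) ^ (0.05 * τ)) ^ 2 := pow_le_pow_left₀ a0 e2 2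
        _ = C1 * ((r : ℝ) ^ (0.05 * τ) * (r : ℝ) ^ (0.05 * τ)) := by rw [hC1]; ring
        _ = _ := by rw [← Real.rpow_add hr0]; congr 2; ring
    have e4 : (r : ℝ) ^ (-(0.87 * τ)) ≤ (2 : ℝ) ^ (-(0.174 * τ) * (k0 : ℝ)) := by
      have : (2 : ℝ) ^ (-(0.174 * τ) * (k0 : ℝ)) = ((2 : ℝ) ^ ((k0 : ℝ) / 5)) ^ (-(0.87 * τ)) := by
        rw [← Real.rpow_mul (by norm_num)]; congr 1; ring
      rw [this]
      exact Real.rpow_le_rpow_of_nonpos (by positivity) (hT r hr) (by linarith [mul_pos (show (0:ℝ) < 0.87 by norm_num) hτ])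
    rw [e1]
    calc (r : ℝ) ^ (-(1 + τ)) * (1 + Real.log r) ^ 2 ≤ (r : ℝ) ^ (-(1 + τ)) * (C1 * (r : ℝ) ^ (0.1 * τ)) :=
          mul_le_mul_of_nonneg_left e3 (by positivity)
      _ = C1 * ((r : ℝ) ^ (-(0.87 * τ)) * (r : ℝ) ^ (-(1 + 0.03 * τ))) := by
          rw [← Real.rpow_add hr0, mul_left_comm, ← Real.rpow_add hr0]; congr 2; ring
      _ ≤ C1 * ((2 : ℝ) ^ (-(0.174 * τ) * (k0 : ℝ)) * (r : ℝ) ^ (-(1 + 0.03 * τ))) := by
          apply mul_le_mul_of_nonneg_left _ (by positivity)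
          exact mul_le_mul_of_nonneg_right e4 (by positivity)
      _ = _ := by ring
  refine (Finset.sum_le_sum hterm).trans ?_
  rw [← Finset.mul_sum]
  have h2 : ∑ r ∈ T, (r : ℝ) ^ (-(1 + 0.03 * τ)) ≤ Z := hsum.sum_le_tsum T fun n _ => by positivity
  have h3 : (2 : ℝ) ^ (-(0.174 * τ) * (k0 : ℝ)) ≤ (2 : ℝ) ^ (-(0.007 * τ) * (k0 : ℝ)) * (2 : ℝ) ^ (-(τ / 6) * (k0 : ℝ)) := by
    rw [← Real.rpow_add (by norm_num)]
    apply Real.rpow_le_rpow_of_exponent_le (by norm_num)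
    have : 0 < τ * (k0 : ℝ) := by positivity
    nlinarith
  calc C1 * (2 : ℝ) ^ (-(0.174 * τ) * (k0 : ℝ)) * ∑ r ∈ T, (r : ℝ) ^ (-(1 + 0.03 * τ))
      ≤ C1 * ((2 : ℝ) ^ (-(0.007 * τ) * (k0 : ℝ)) * (2 : ℝ) ^ (-(τ / 6) * (k0 : ℝ))) * Z := by
        apply mul_le_mul _ h2 (Finset.sum_nonneg fun _ _ => by positivity) (by positivity)
        exact mul_le_mul_of_nonneg_left h3 (by positivity)
    _ = (C1 * Z * (2 : ℝ) ^ (-(0.007 * τ) * (k0 : ℝ))) * (2 : ℝ) ^ (-(τ / 6) * (k0 : ℝ)) := by ring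
    _ ≤ 1 * (2 : ℝ) ^ (-(τ / 6) * (k0 : ℝ)) := by
        apply mul_le_mul_of_nonneg_right _ (by positivity)
        refine h1.trans ?_
        rw [div_le_one (by linarith)]; exact hk1
    _ = _ := one_mul _

/-! ### MassC1 -/

theorem hh_bounds : 0 ≤ S.hh ∧ S.hh ≤ 1/2 := by
  have h1 := S.d_pos; have h2 := S.d_le; have h3 := S.c_le; have h4 := S.eta_le; have h5 := S.del_le
  have hc := c_pos S; have he := eta_pos S
  have hτ := tau_pos S
  have hτ2 : S.tau ≤ S.d / 2 := by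
    unfold Sys.tau Sys.ep
    have : S.c * S.eta ≤ 1 := by nlinarith
    have : S.c * S.eta * S.d ≤ 1 * S.d := mul_le_mul_of_nonneg_right this h1.le
    linarith
  unfold Sys.hh Sys.s
  constructor
  · linarith
  · linarith

theorem pc_eq {A : Finset ℕ} {m : ℕ} (hm : Squarefree m) (hA : A ⊆ m.primeFactors) :
    S.pc A m.primeFactors * (m : ℝ) ^ S.hh = ((∏ p ∈ A, p : ℕ) : ℝ) ^ S.hh := by
  have hm0 : m ≠ 0 := hm.ne_zero
  have h1 : (m : ℝ) = ((∏ p ∈ m.primeFactors \ A, p : ℕ) : ℝ) * ((∏ p ∈ A, p : ℕ) : ℝ) := by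
    rw [← Nat.cast_mul, Finset.prod_sdiff hA, Nat.prod_primeFactors_of_squarefree hm]
  have h2 : S.pc A m.primeFactors = ((∏ p ∈ m.primeFactors \ A, p : ℕ) : ℝ) ^ (-S.hh) := by
    rw [Sys.pc]
    push_cast
    rw [← Real.finsetProd_rpow _ _ (fun i _ => Nat.cast_nonneg _)]
    rfl
  have hpos : (0 : ℝ) < ((∏ p ∈ m.primeFactors \ A, p : ℕ) : ℝ) := by
    have : 0 < ∏ p ∈ m.primeFactors \ A, p :=
      Finset.prod_pos fun p hp => (Nat.prime_of_mem_primeFactors (mem_sdiff.1 hp).1).pos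
    exact_mod_cast this
  rw [h2, h1, Real.mul_rpow hpos.le (Nat.cast_nonneg _), ← mul_assoc, ← Real.rpow_add hpos]
  simp

/-- a bound for a sum over the bad cells by classes -/
theorem sum_badc_le {k : ℕ} (hk : S.K ≤ k) (f : ℕ → ℝ) (b : ℝ)
    (hf : ∀ j ∈ S.badc k, f j ≤ (2 : ℝ) ^ (-(S.u (S.cls k j)) * k) * b) (hb : 0 ≤ b) :
    ∑ j ∈ S.badc k, f j ≤ 3 * b := by
  have h1 : ∑ j ∈ S.badc k, f j ≤ ∑ j ∈ S.badc k, (2 : ℝ) ^ (-(S.u (S.cls k j)) * k) * b := Finset.sum_le_sum hf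
  refine h1.trans ?_
  rw [← Finset.sum_fiberwise_of_maps_to (t := (Finset.univ : Finset (Fin 3))) (g := fun j => S.cls k j)
    (fun _ _ => mem_univ _)]
  have h2 : ∀ i ∈ (Finset.univ : Finset (Fin 3)),
      ∑ j ∈ (S.badc k).filter (fun j => S.cls k j = i), (2 : ℝ) ^ (-(S.u (S.cls k j)) * k) * b ≤ b := by
    intro i _
    have h3 : ∑ j ∈ (S.badc k).filter (fun j => S.cls k j = i), (2 : ℝ) ^ (-(S.u (S.cls k j)) * k) * b =
        (((S.badc k).filter (fun j => S.cls k j = i)).card : ℝ) * ((2 : ℝ) ^ (-(S.u i) * k) * b) := by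
      rw [← nsmul_eq_mul, ← Finset.sum_const]
      refine Finset.sum_congr rfl fun j hj => ?_
      rw [(mem_filter.1 hj).2]
    rw [h3]
    have h4 := S.few k hk i
    have h5 : (S.badc k).filter (fun j => S.cls k j = i) =
        (Finset.range (nc S.d k)).filter (fun j => S.bad k j ∧ S.cls k j = i) := by
      rw [Sys.badc, Finset.filter_filter]
    rw [h5]
    calc _ ≤ (2 : ℝ) ^ (S.u i * k) * ((2 : ℝ) ^ (-(S.u i) * k) * b) :=
          mul_le_mul_of_nonneg_right h4 (by positivity)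
      _ = b := by
          rw [← mul_assoc, ← Real.rpow_add (by norm_num)]
          have : S.u i * (k : ℝ) + -(S.u i) * k = 0 := by ring
          rw [this, Real.rpow_zero, one_mul]
  refine (Finset.sum_le_sum h2).trans ?_
  rw [Finset.sum_const, Finset.card_univ, Fintype.card_fin, nsmul_eq_mul]
  norm_num

theorem massC1 : MassC1 := by
  intro S
  have hc := c_pos S
  have hd := S.d_pos
  have hs : S.s = S.d / 2 := rfl
  obtain ⟨K0, hK0⟩ := eventually_atTop.1 (ev_small 6 (S.c / 2) (by linarith))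
  refine ⟨max K0 S.K, fun k hk A => ?_⟩
  have hkK : S.K ≤ k := (le_max_right _ _).trans hk
  have h6 := hK0 k ((le_max_left _ _).trans hk)
  have hk1 : 1 ≤ k := S.K_pos.trans hkK
  have hkr : (1 : ℝ) ≤ k := by exact_mod_cast hk1
  have hkpos : (0 : ℝ) < k := by linarith
  obtain ⟨hh0, hh1⟩ := hh_bounds S
  have hcell : ∀ j ∈ S.badc k, ∑ x ∈ (S.Cand k j).filter (fun x => A ⊆ x.2.primeFactors),
      S.wd k x.2 * (x.1 : ℝ) ^ (-S.s) * S.pc A x.2.primeFactors ≤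
      (2 : ℝ) ^ (-(S.u (S.cls k j)) * k) * (2 * (2 : ℝ) ^ (-S.c * k)) := by
    intro j hj
    obtain ⟨hj1, hj2⟩ := (mem_badc S).1 hj
    set u := S.u (S.cls k j) with hu
    have hu1 : 1/10 ≤ u := S.u_ge _
    set F := (S.Cand k j).filter (fun x => A ⊆ x.2.primeFactors) with hF
    rcases F.eq_empty_or_nonempty with hE | hNE
    · rw [hE, Finset.sum_empty]; positivity
    set g := ∏ p ∈ A, p with hg
    have hfacts : ∀ x ∈ F, x ∈ S.Cand k j ∧ A ⊆ x.2.primeFactors := fun x hx => mem_filter.1 hx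
    have hsqf : ∀ x ∈ F, Squarefree x.2 := fun x hx =>
      (S.cand k hkK j hj1 hj2 x (hfacts x hx).1).2.2.1.squarefree_of_dvd (Dvd.intro_left _ rfl)
    have hgdvd : ∀ x ∈ F, g ∣ x.2 := by
      intro x hx
      have := Finset.prod_dvd_prod_of_subset A x.2.primeFactors (fun p => p) (hfacts x hx).2
      rwa [Nat.prod_primeFactors_of_squarefree (hsqf x hx)] at this
    have hg1 : 1 ≤ g := by
      obtain ⟨x, hx⟩ := hNE
      exact Nat.pos_of_dvd_of_pos (hgdvd x hx) (Nat.pos_of_ne_zero (hsqf x hx).ne_zero)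
    have hgr : (1 : ℝ) ≤ (g : ℝ) := by exact_mod_cast hg1
    -- bound for one candidate
    have hone : ∀ x ∈ F, S.wd k x.2 * (x.1 : ℝ) ^ (-S.s) * S.pc A x.2.primeFactors ≤
        (2 : ℝ) ^ ((S.s - 1) * k) * (2 : ℝ) ^ ((1/2 - u - S.c) * k) * (g : ℝ) ^ S.hh := by
      intro x hx
      obtain ⟨c1, c2, c3, c4, c5, c6, c7⟩ := S.cand k hkK j hj1 hj2 x (hfacts x hx).1
      have hm0 : (0 : ℝ) < x.2 := by
        have : 0 < x.2 := by omega
        exact_mod_cast this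
      have hq1 : (1 : ℝ) ≤ x.1 := by exact_mod_cast c1.pos
      have e1 : (x.1 : ℝ) ^ (-S.s) ≤ 1 := Real.rpow_le_one_of_one_le_of_nonpos hq1 (by linarith)
      have e2 : S.wd k x.2 * S.pc A x.2.primeFactors =
          (2 : ℝ) ^ ((S.s - 1) * k) * ((x.2 : ℝ) ^ (1/2 + S.del) * (g : ℝ) ^ S.hh) := by
        have e3 : (x.2 : ℝ) ^ (1 - S.s + S.tau) = (x.2 : ℝ) ^ (1/2 + S.del) * (x.2 : ℝ) ^ S.hh := by
          rw [← Real.rpow_add hm0]; congr 1; unfold Sys.hh; ring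
        rw [Sys.wd, e3]
        have e4 := pc_eq S (hsqf x hx) (hfacts x hx).2
        rw [← hg] at e4
        calc (2 : ℝ) ^ ((S.s - 1) * k) * ((x.2 : ℝ) ^ (1/2 + S.del) * (x.2 : ℝ) ^ S.hh) * S.pc A x.2.primeFactors
            = (2 : ℝ) ^ ((S.s - 1) * k) * ((x.2 : ℝ) ^ (1/2 + S.del) * (S.pc A x.2.primeFactors * (x.2 : ℝ) ^ S.hh)) := by ring
          _ = _ := by rw [e4]
      have hwd : 0 ≤ S.wd k x.2 * S.pc A x.2.primeFactors := by rw [e2]; positivity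
      calc S.wd k x.2 * (x.1 : ℝ) ^ (-S.s) * S.pc A x.2.primeFactors
          = (S.wd k x.2 * S.pc A x.2.primeFactors) * (x.1 : ℝ) ^ (-S.s) := by ring
        _ ≤ (S.wd k x.2 * S.pc A x.2.primeFactors) * 1 := mul_le_mul_of_nonneg_left e1 hwd
        _ = (2 : ℝ) ^ ((S.s - 1) * k) * ((x.2 : ℝ) ^ (1/2 + S.del) * (g : ℝ) ^ S.hh) := by rw [mul_one, e2]
        _ ≤ (2 : ℝ) ^ ((S.s - 1) * k) * ((2 : ℝ) ^ ((1/2 - u - S.c) * k) * (g : ℝ) ^ S.hh) := by
            apply mul_le_mul_of_nonneg_left _ (by positivity)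
            exact mul_le_mul_of_nonneg_right c7 (by positivity)
        _ = _ := by ring
    -- number of candidates
    have hcard : (F.card : ℝ) ≤ 2 ^ ec S.d k / g + 1 := by
      have h1 : F.card ≤ ((Finset.Ico (2 ^ k + j * 2 ^ ec S.d k) (2 ^ k + j * 2 ^ ec S.d k + 2 ^ ec S.d k)).filter
          (fun n => g ∣ n)).card := by
        apply Finset.card_le_card_of_injOn (fun x => x.1 * x.2)
        · intro x hx
          have hx' : x ∈ F := hx
          have hcx := (S.cand k hkK j hj1 hj2 x (hfacts x hx').1).2.2.2.2.1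
          rw [cell] at hcx
          have e5 : (j + 1) * 2 ^ ec S.d k = j * 2 ^ ec S.d k + 2 ^ ec S.d k := by ring
          rw [e5, ← add_assoc] at hcx
          exact mem_coe.2 (mem_filter.2 ⟨hcx, Dvd.dvd.mul_left (hgdvd x hx') _⟩)
        · intro x hx y hy hxy
          have hx' : x ∈ F := hx
          have hy' : y ∈ F := hy
          exact S.inj k hkK j hj1 hj2 x (hfacts x hx').1 y (hfacts y hy').1 hxy
      have h2 := Pool.Agent.Helper62.KS.card_mult_le g (2 ^ k + j * 2 ^ ec S.d k) (2 ^ ec S.d k) hg1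
      push_cast at h2
      exact le_trans (by exact_mod_cast h1) h2
    have hG : (g : ℝ) ^ S.hh ≤ (2 : ℝ) ^ ((1/2 - u - S.c) * k) := by
      obtain ⟨x, hx⟩ := hNE
      obtain ⟨c1, c2, c3, c4, c5, c6, c7⟩ := S.cand k hkK j hj1 hj2 x (hfacts x hx).1
      have hle : (g : ℝ) ≤ x.2 := by
        exact_mod_cast Nat.le_of_dvd (by omega) (hgdvd x hx)
      have hx1 : (1 : ℝ) ≤ x.2 := hgr.trans hle
      have hdel : 0 ≤ S.del := le_trans (eta_pos S).le S.eta_le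
      calc (g : ℝ) ^ S.hh ≤ (x.2 : ℝ) ^ S.hh := Real.rpow_le_rpow (by linarith) hle hh0
        _ ≤ (x.2 : ℝ) ^ (1/2 + S.del) := Real.rpow_le_rpow_of_exponent_le hx1 (by linarith)
        _ ≤ _ := c7
    have hec : (2 : ℝ) ^ ec S.d k ≤ (2 : ℝ) ^ ((1/2 - S.d) * k) := by
      rw [← Real.rpow_natCast]
      apply Real.rpow_le_rpow_of_exponent_le (by norm_num)
      rw [ec]
      have h1 := S.d_le; have h2 := S.c_le; have h3 := S.eta_le; have h4 := S.del_le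
      refine (Nat.floor_le (mul_nonneg hkpos.le (by linarith))).trans (le_of_eq (by ring))
    set Q := (2 : ℝ) ^ ((S.s - 1) * k) * (2 : ℝ) ^ ((1/2 - u - S.c) * k) with hQ
    have hQ0 : 0 < Q := by positivity
    calc ∑ x ∈ F, S.wd k x.2 * (x.1 : ℝ) ^ (-S.s) * S.pc A x.2.primeFactors
        ≤ ∑ x ∈ F, Q * (g : ℝ) ^ S.hh := Finset.sum_le_sum hone
      _ = F.card * (Q * (g : ℝ) ^ S.hh) := by rw [Finset.sum_const, nsmul_eq_mul]
      _ ≤ (2 ^ ec S.d k / g + 1) * (Q * (g : ℝ) ^ S.hh) := mul_le_mul_of_nonneg_right hcard (by positivity)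
      _ = 2 ^ ec S.d k * Q * ((g : ℝ) ^ S.hh / g) + Q * (g : ℝ) ^ S.hh := by ring
      _ ≤ (2 : ℝ) ^ ((1/2 - S.d) * k) * Q * 1 + Q * (2 : ℝ) ^ ((1/2 - u - S.c) * k) := by
          apply add_le_add
          · apply mul_le_mul
            · exact mul_le_mul_of_nonneg_right hec hQ0.le
            · rw [div_le_one (by linarith)]
              calc (g : ℝ) ^ S.hh ≤ (g : ℝ) ^ (1 : ℝ) := Real.rpow_le_rpow_of_exponent_le hgr (by linarith)
                _ = g := Real.rpow_one _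
            · positivity
            · positivity
          · exact mul_le_mul_of_nonneg_left hG hQ0.le
      _ = (2 : ℝ) ^ ((S.s - S.d - u - S.c) * k) + (2 : ℝ) ^ ((S.s - 2 * u - 2 * S.c) * k) := by
          rw [hQ, mul_one, ← Real.rpow_add (by norm_num), ← Real.rpow_add (by norm_num), ← Real.rpow_add (by norm_num)]
          congr 2 <;> ring
      _ ≤ (2 : ℝ) ^ ((-u - S.c) * k) + (2 : ℝ) ^ ((-u - S.c) * k) := by
          have h1 := S.d_le; have h2 := S.c_le; have h3 := S.eta_le; have h4 := S.del_le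
          apply add_le_add
          · apply Real.rpow_le_rpow_of_exponent_le (by norm_num)
            apply mul_le_mul_of_nonneg_right _ hkpos.le
            rw [hs]; linarith
          · apply Real.rpow_le_rpow_of_exponent_le (by norm_num)
            apply mul_le_mul_of_nonneg_right _ hkpos.le
            rw [hs]; linarith
      _ = (2 : ℝ) ^ (-u * k) * (2 * (2 : ℝ) ^ (-S.c * k)) := by
          have : (2 : ℝ) ^ ((-u - S.c) * k) = (2 : ℝ) ^ (-u * k) * (2 : ℝ) ^ (-S.c * k) := by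
            rw [← Real.rpow_add (by norm_num)]; congr 1; ring
          rw [this]; ring
  have hfin := sum_badc_le S hkK _ (2 * (2 : ℝ) ^ (-S.c * k)) hcell (by positivity)
  refine hfin.trans ?_
  have e1 : (2 : ℝ) ^ (-S.c * k) = (2 : ℝ) ^ (-(S.c / 2) * k) * (2 : ℝ) ^ (-(S.c / 2) * k) := by
    rw [← Real.rpow_add (by norm_num)]; congr 1; ring
  rw [e1]
  have h7 : 6 * (2 : ℝ) ^ (-(S.c / 2) * (k : ℝ)) ≤ 1 := h6.trans (by rw [div_le_one hkpos]; exact hkr)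
  have h8 : (0 : ℝ) < (2 : ℝ) ^ (-(S.c / 2) * (k : ℝ)) := by positivity
  nlinarith

end Pool.Agent.Helper29.KS
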